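import Pool.Agent.Helper10.RC.Basic

open scoped ENNReal NNReal InnerProductSpace ComplexOrder
open Filter Topology

attribute [-instance] CStarMatrix.instAlgebra CStarMatrix.instModule CStarMatrix.instSMul
  CStarMatrix.instMulAction CStarMatrix.instDistribMulAction

set_option linter.unusedSectionVars false

noncomputable section
namespace RC
universe u

section
variable {A : Type u} [CStarAlgebra A] [PartialOrder A] [StarOrderedRing A]
variable {ι ν : Type} [Fintype ι] [DecidableEq ι] [Fintype ν] [DecidableEq ν]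

/-- The inclusion of the corner. -/
def cornerV (A : Type u) [CStarAlgebra A] (ι : Type) [DecidableEq ι] (ν : Type) [DecidableEq ν]
    (k₀ : ν) : CStarMatrix ι (ι × ν) A :=
  CStarMatrix.ofMatrix fun i q => if q = (i, k₀) then 1 else 0

/-- The matrix `a ⊗ e₀₀`. -/
def cornerM (ν : Type) [DecidableEq ν] (k₀ : ν) (a : CStarMatrix ι ι A) :
    CStarMatrix ι ι (CStarMatrix ν ν A) :=
  CStarMatrix.ofMatrix fun i i' => CStarMatrix.ofMatrix fun k k' =>
    if k = k₀ ∧ k' = k₀ then a i i' else 0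

theorem corner_up (k₀ : ν) (a : CStarMatrix ι ι A) :
    (cornerV A ι ν k₀).conjTranspose * a * cornerV A ι ν k₀ = flat (cornerM ν k₀ a) := by
  ext p q
  obtain ⟨i, k⟩ := p
  obtain ⟨i', k'⟩ := q
  have hc : ∀ l : ι, (cornerV A ι ν k₀).conjTranspose (i, k) l =
      if k = k₀ ∧ l = i then (1 : A) else 0 := by
    intro l
    show star (if (i, k) = (l, k₀) then (1 : A) else 0) = _
    by_cases h : k = k₀ ∧ l = i
    · rw [if_pos (by rw [h.1, h.2]), if_pos h, star_one]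
    · rw [if_neg (fun h' => h ⟨(Prod.ext_iff.1 h').2, (Prod.ext_iff.1 h').1.symm⟩), if_neg h,
        star_zero]
  have hv : ∀ l : ι, cornerV A ι ν k₀ l (i', k') =
      if k' = k₀ ∧ l = i' then (1 : A) else 0 := by
    intro l
    show (if (i', k') = (l, k₀) then (1 : A) else 0) = _
    by_cases h : k' = k₀ ∧ l = i'
    · rw [if_pos (by rw [h.1, h.2]), if_pos h]
    · rw [if_neg (fun h' => h ⟨(Prod.ext_iff.1 h').2, (Prod.ext_iff.1 h').1.symm⟩), if_neg h]
  have hr : flat (cornerM ν k₀ a) (i, k) (i', k') = if k = k₀ ∧ k' = k₀ then a i i' else 0 := rfl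
  rw [hr, CStarMatrix.mul_apply]
  simp only [CStarMatrix.mul_apply, hc, hv]
  by_cases hk : k = k₀ <;> by_cases hk' : k' = k₀ <;> simp [hk, hk']

theorem corner_down (k₀ : ν) (a : CStarMatrix ι ι A) :
    cornerV A ι ν k₀ * flat (cornerM ν k₀ a) * (cornerV A ι ν k₀).conjTranspose = a := by
  ext i j
  have hc : ∀ p : ι × ν, (cornerV A ι ν k₀).conjTranspose p j =
      if p = (j, k₀) then (1 : A) else 0 := by
    intro p
    show star (if p = (j, k₀) then (1 : A) else 0) = _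
    split_ifs <;> simp
  have hv : ∀ p : ι × ν, cornerV A ι ν k₀ i p = if p = (i, k₀) then (1 : A) else 0 := by
    intro p
    rfl
  have hr : ∀ p q : ι × ν, flat (cornerM ν k₀ a) p q =
      if p.2 = k₀ ∧ q.2 = k₀ then a p.1 q.1 else 0 := fun _ _ => rfl
  rw [CStarMatrix.mul_apply]
  simp only [CStarMatrix.mul_apply, hc, hv, hr]
  simp only [ite_mul, one_mul, zero_mul, Finset.sum_ite_eq', Finset.mem_univ, if_true,
    mul_ite, mul_one, mul_zero]
  rw [Finset.sum_eq_single (i, k₀)]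
  · simp
  · intro p _ hp
    simp [hp]
  · intro h
    exact absurd (Finset.mem_univ _) h

end

theorem redCompP (h1 : RedDnP.{u}) (h2 : FlatP.{u}) (h3 : CuTransP.{u}) (h4 : QMonoP.{u}) :
    RedCompP.{u} := by
  intro A _ _ _ ν _ _ _ r hr ι κ _ _ _ _ a b ha hb h
  obtain ⟨k₀⟩ := (inferInstance : Nonempty ν)
  have up : ∀ (μ : Type) [Fintype μ] [DecidableEq μ] (x : CStarMatrix μ μ A), 0 ≤ x →
      0 ≤ flat (cornerM ν k₀ x) ∧ Cu x (flat (cornerM ν k₀ x)) ∧ Cu (flat (cornerM ν k₀ x)) x := by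
    intro μ _ _ x hx
    refine ⟨?_, ?_, ?_⟩
    · rw [← corner_up]
      exact cm_conj_nonneg' _ hx
    · intro ε hε
      refine ⟨cornerV A μ ν k₀, ?_⟩
      rw [corner_down, sub_self, norm_zero]
      exact hε
    · intro ε hε
      refine ⟨(cornerV A μ ν k₀).conjTranspose, ?_⟩
      rw [cm_conj_conj, corner_up, sub_self, norm_zero]
      exact hε
  have hn : (0 : ℝ) < Fintype.card ν := by exact_mod_cast Fintype.card_pos
  have ha' := up ι a ha
  have hb' := up κ b hb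
  have fa := h2 A ν ι κ (cornerM ν k₀ a) (cornerM ν k₀ b)
  have fb := h2 A ν κ κ (cornerM ν k₀ b) (cornerM ν k₀ b)
  have pa : 0 ≤ cornerM ν k₀ a := fa.1.2 ha'.1
  have pb : 0 ≤ cornerM ν k₀ b := fb.1.2 hb'.1
  have key : Cu (cornerM ν k₀ a) (cornerM ν k₀ b) := by
    refine hr ι κ _ _ pa pb fun σ' => ?_
    obtain ⟨σ, hσ⟩ := h1 A ν σ'
    rw [hσ ι _ pa, hσ κ _ pb]
    have ea : σ.dim (flat (cornerM ν k₀ a)) = σ.dim a :=
      le_antisymm (h4 A σ _ _ _ _ ha'.1 ha ha'.2.2) (h4 A σ _ _ _ _ ha ha'.1 ha'.2.1)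
    have eb : σ.dim (flat (cornerM ν k₀ b)) = σ.dim b :=
      le_antisymm (h4 A σ _ _ _ _ hb'.1 hb hb'.2.2) (h4 A σ _ _ _ _ hb hb'.1 hb'.2.1)
    rw [ea, eb, lt_div_iff₀ hn, add_mul, div_mul_cancel₀ _ hn.ne']
    have := h σ
    linarith [mul_comm r (Fintype.card ν : ℝ)]
  exact h3 A _ _ _ _ _ _ (h3 A _ _ _ _ _ _ ha'.2.1 (fa.2.1.1 key)) hb'.2.2

end RC
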